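import Pool.Agent.helper47.SC.Spec

/-!
# MP_0015b7: row LGB (bounds for the derivatives of the translates of `log nsq`)
-/

open scoped Topology ContDiff
open Set Filter Metric MeasureTheory

namespace Pool.Agent.SC

theorem LGB_compact (h2 : NSQ_stmt) (δ : ℝ) :
    IsCompact {w : C3 | δ ≤ nsq w ∧ nsq w ≤ 1} := by
  obtain ⟨-, hc, -, -, -, -, -, ha, hb, hd, -, -⟩ := h2
  refine Metric.isCompact_of_isClosed_isBounded ?_ ?_
  · have e1 : IsClosed {w : C3 | δ ≤ nsq w} := isClosed_le continuous_const hc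
    have e2 : IsClosed {w : C3 | nsq w ≤ 1} := isClosed_le hc continuous_const
    exact e1.inter e2
  · refine (Metric.isBounded_closedBall (x := (0 : C3)) (r := 1)).subset ?_
    rintro w ⟨-, hw⟩
    have key : ∀ x : ℝ, 0 ≤ x → x ^ 2 ≤ nsq w → x ≤ 1 := by
      intro x hx hx2
      nlinarith [hx2.trans hw]
    rw [mem_closedBall, dist_zero_right, Prod.norm_def, Prod.norm_def]
    exact max_le (key _ (norm_nonneg _) (ha w))
      (max_le (key _ (norm_nonneg _) (hb w)) (key _ (norm_nonneg _) (hd w)))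

theorem LGB (h1 : LGS_stmt) (h2 : NSQ_stmt) : LGB_stmt := by
  intro δ n hδ
  have hK := LGB_compact h2 δ
  have hcont : ContinuousOn (fun w : C3 => ‖iteratedFDeriv ℝ n (fun w : C3 => Real.log (nsq w)) w‖)
      {w : C3 | δ ≤ nsq w ∧ nsq w ≤ 1} := by
    intro w hw
    have hw0 : w ≠ 0 := by
      intro h0
      have := (h2.2.2.2.2.1 w).2 h0
      have h3 : δ ≤ nsq w := hw.1
      linarith
    have h4 := h1.1 w hw0
    have h5 : ContinuousAt (iteratedFDeriv ℝ n (fun w : C3 => Real.log (nsq w))) w :=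
      h4.continuousAt_iteratedFDeriv (by exact_mod_cast le_top)
    exact (h5.norm).continuousWithinAt
  obtain ⟨C, hC⟩ := hK.exists_bound_of_continuousOn hcont
  refine ⟨C, fun a w hw1 hw2 => ?_⟩
  have h6 : iteratedFDeriv ℝ n (fun w : C3 => Real.log (nsq (w - a))) w
      = iteratedFDeriv ℝ n (fun w : C3 => Real.log (nsq w)) (w - a) :=
    iteratedFDeriv_comp_sub (f := fun w : C3 => Real.log (nsq w)) n a w
  rw [h6]
  have h7 := hC (w - a) ⟨hw1, hw2⟩
  rwa [Real.norm_of_nonneg (norm_nonneg _)] at h7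

end Pool.Agent.SC
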